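import Mathlib

/-!
# The trace argument in an abstract normed space
-/

set_option autoImplicit false

namespace Pool.Agent.helper26.C0

open Filter Topology Set Function

variable {V : Type*} [NormedAddCommGroup V] [NormedSpace ℝ V]

/-- The approximate traces of a finite rank operator tend to zero. -/
theorem abs_trace (lam : ℕ → V →ₗ[ℝ] ℝ) (sv : ℕ → ℕ → V)
    (hvan : ∀ v, Tendsto (fun L => ∑ n ∈ Finset.range L, lam n v • sv L n) atTop (𝓝 0))
    (T : V →L[ℝ] V) (hT : FiniteDimensional ℝ (LinearMap.range (T : V →ₗ[ℝ] V))) :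
    Tendsto (fun L => ∑ n ∈ Finset.range L, lam n (T (sv L n))) atTop (𝓝 0) := by
  obtain ⟨W, hW⟩ : ∃ W : Submodule ℝ V, W = LinearMap.range (T : V →ₗ[ℝ] V) := ⟨_, rfl⟩
  rw [← hW] at hT
  obtain ⟨b, hb⟩ : ∃ b : Module.Basis (Fin (Module.finrank ℝ W)) ℝ W, b = Module.finBasis ℝ W :=
    ⟨_, rfl⟩
  have hTW : ∀ w, T w ∈ W := fun w => by rw [hW]; exact ⟨w, rfl⟩
  obtain ⟨ψ, hψ⟩ : ∃ ψ : Fin (Module.finrank ℝ W) → (V →L[ℝ] ℝ),
      ∀ w, T w = ∑ i, ψ i w • (b i : V) := by
    refine ⟨fun i => (LinearMap.toContinuousLinearMap (b.coord i)).comp (T.codRestrict W hTW),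
      fun w => ?_⟩
    have h1 := b.sum_repr ⟨T w, hTW w⟩
    have h2 := congrArg (fun v : W => (v : V)) h1
    simp only [AddSubmonoidClass.coe_finsetSum, SetLike.val_smul] at h2
    exact h2.symm
  have h1 : ∀ L, ∑ n ∈ Finset.range L, lam n (T (sv L n)) =
      ∑ i, ψ i (∑ n ∈ Finset.range L, lam n (b i : V) • sv L n) := by
    intro L
    have h2 : ∀ n, lam n (T (sv L n)) = ∑ i, ψ i (sv L n) * lam n (b i : V) := by
      intro n
      rw [hψ, map_sum]
      refine Finset.sum_congr rfl fun i _ => ?_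
      rw [map_smul, smul_eq_mul]
    simp only [h2]
    rw [Finset.sum_comm]
    refine Finset.sum_congr rfl fun i _ => ?_
    rw [map_sum]
    refine Finset.sum_congr rfl fun n _ => ?_
    rw [map_smul, smul_eq_mul, mul_comm]
  simp only [h1]
  have h3 : ∀ i, Tendsto (fun L => ψ i (∑ n ∈ Finset.range L, lam n (b i : V) • sv L n)) atTop
      (𝓝 0) := fun i => by
    have := ((ψ i).continuous.tendsto 0).comp (hvan (b i))
    rwa [map_zero] at this
  have h4 := tendsto_finsetSum Finset.univ fun i _ => h3 i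
  simpa using h4

/-- The contradiction. -/
theorem abs_contra {a : ℕ → ℕ → ℝ} {s : ℕ → ℝ} (hs : Summable s) (has : ∀ n m, |a n m| ≤ s n)
    (htr : ∑' n, a n n ≠ 0) (C : ℝ) (hC : 0 ≤ C)
    (lam : ℕ → ℕ → V →ₗ[ℝ] ℝ) (sv : ℕ → ℕ → ℕ → V)
    (hvan : ∀ k v, Tendsto (fun L => ∑ n ∈ Finset.range L, lam k n v • sv k L n) atTop (𝓝 0))
    (hlam : ∀ k n v, |lam k n v| ≤ ‖v‖ / ((k : ℝ) + 1))
    (hsv : ∀ k L n, n < L → ‖sv k L n‖ ≤ ((k : ℝ) + 1) * s n)
    (hsub : ∀ k L M n, n < L → n < M → ‖sv k L n - sv k M n‖ ≤ s n)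
    (hdiag : ∀ k L n, n < L → lam k n (sv k L n) = a n n)
    (h : ∀ K : Set V, IsCompact K → ∀ ε : ℝ, 0 < ε → ∃ T : V →L[ℝ] V,
      FiniteDimensional ℝ (LinearMap.range (T : V →ₗ[ℝ] V)) ∧ ‖T‖ ≤ C ∧
        ∀ x ∈ K, ‖T x - x‖ ≤ ε) : False := by
  have hs0 : ∀ n, 0 ≤ s n := fun n => (abs_nonneg _).trans (has n 0)
  obtain ⟨τ, hτ⟩ : ∃ τ : ℝ, τ = |∑' n, a n n| := ⟨_, rfl⟩
  have hτ0 : 0 < τ := by rw [hτ]; exact abs_pos.2 htr
  obtain ⟨Θ, hΘ⟩ : ∃ Θ : ℝ, Θ = ∑' n, s n := ⟨_, rfl⟩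
  have hΘ0 : 0 ≤ Θ := by rw [hΘ]; exact tsum_nonneg hs0
  -- the block
  obtain ⟨k, hk⟩ : ∃ k : ℕ, 4 * (C * Θ) / τ < k := exists_nat_gt _
  have hk1 : C * Θ / ((k : ℝ) + 1) < τ / 4 := by
    rw [div_lt_iff₀ hτ0] at hk
    rw [div_lt_iff₀ (by positivity)]
    nlinarith
  -- the tail
  have htail : Tendsto (fun M => ∑' n, s (n + M)) atTop (𝓝 0) := tendsto_sum_nat_add s
  obtain ⟨M, hM⟩ : ∃ M : ℕ, (C + 1) * ∑' n, s (n + M) < τ / 4 := by
    have h1 := htail.const_mul (C + 1)
    rw [mul_zero] at h1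
    exact (h1.eventually (gt_mem_nhds (by positivity : 0 < τ / 4))).exists
  obtain ⟨R, hR⟩ : ∃ R : ℝ, R = ∑' n, s (n + M) := ⟨_, rfl⟩
  rw [← hR] at hM
  have hsM : Summable fun n => s (n + M) := (summable_nat_add_iff M).2 hs
  have hR0 : 0 ≤ R := by rw [hR]; exact tsum_nonneg fun n => hs0 _
  obtain ⟨ε, hε⟩ : ∃ ε : ℝ, ε = τ / (4 * ((M : ℝ) + 1)) := ⟨_, rfl⟩
  have hε0 : 0 < ε := by rw [hε]; positivity
  have hεM : M * ε ≤ τ / 4 := by
    rw [hε]
    rw [mul_div_assoc', div_le_div_iff₀ (by positivity) (by norm_num)]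
    nlinarith
  obtain ⟨T, hT, hTC, hTK⟩ := h (Set.range fun n : Fin M => sv k M n)
    (Set.finite_range _).isCompact ε hε0
  have hTn : ∀ w, ‖T w‖ ≤ C * ‖w‖ := fun w =>
    (T.le_opNorm w).trans (mul_le_mul_of_nonneg_right hTC (norm_nonneg _))
  have hlim := abs_trace (lam k) (sv k) (hvan k) T hT
  have hk' : (0 : ℝ) < (k : ℝ) + 1 := by positivity
  -- small indices
  have hsmall : ∀ L, M ≤ L → ∀ n, n < M →
      |lam k n (T (sv k L n)) - a n n| ≤ C * s n / ((k : ℝ) + 1) + ε := by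
    intro L hL n hn
    have e1 : lam k n (T (sv k L n)) - a n n =
        lam k n (T (sv k L n - sv k M n)) +
        lam k n (T (sv k M n) - sv k M n) := by
      rw [map_sub, map_sub, map_sub, hdiag k M n hn]
      ring
    have e2 : |lam k n (T (sv k L n - sv k M n))| ≤ C * s n / ((k : ℝ) + 1) := by
      refine (hlam _ _ _).trans ?_
      gcongr
      exact (hTn _).trans (mul_le_mul_of_nonneg_left (hsub k L M n (hn.trans_le hL) hn) hC)
    have e3 : |lam k n (T (sv k M n) - sv k M n)| ≤ ε := by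
      refine (hlam _ _ _).trans ?_
      have h1 := hTK (sv k M n) ⟨⟨n, hn⟩, rfl⟩
      rw [div_le_iff₀ hk']
      have h2 : (0 : ℝ) ≤ ε * k := by positivity
      linarith
    rw [e1]
    exact (abs_add_le _ _).trans (add_le_add e2 e3)
  -- large indices
  have hlarge : ∀ L, ∀ n, n < L → |lam k n (T (sv k L n))| ≤ C * s n := by
    intro L n hn
    refine (hlam _ _ _).trans ?_
    rw [div_le_iff₀ hk']
    refine (hTn _).trans ?_
    calc C * ‖sv k L n‖ ≤ C * (((k : ℝ) + 1) * s n) :=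
          mul_le_mul_of_nonneg_left (hsv k L n hn) hC
      _ = C * s n * ((k : ℝ) + 1) := by ring
  have hbound : ∀ L, M ≤ L → |∑ n ∈ Finset.range M, a n n| ≤
      |∑ n ∈ Finset.range L, lam k n (T (sv k L n))| + (C * Θ / ((k : ℝ) + 1) + M * ε + C * R) := by
    intro L hL
    obtain ⟨G, hG⟩ : ∃ G : ℕ → ℝ, G = fun n => lam k n (T (sv k L n)) := ⟨_, rfl⟩
    have g1 : ∀ n, n < M → |G n - a n n| ≤ C * s n / ((k : ℝ) + 1) + ε := fun n hn => by
      rw [hG]; exact hsmall L hL n hn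
    have g2 : ∀ n, n < L → |G n| ≤ C * s n := fun n hn => by
      rw [hG]; exact hlarge L n hn
    have e0 : ∑ n ∈ Finset.range L, lam k n (T (sv k L n)) = ∑ n ∈ Finset.range L, G n := by
      rw [hG]
    rw [e0]
    have e1 : ∑ n ∈ Finset.range L, G n = ∑ n ∈ Finset.range M, G n +
        ∑ n ∈ Finset.range (L - M), G (M + n) := by
      obtain ⟨D, rfl⟩ := Nat.exists_eq_add_of_le hL
      rw [Nat.add_sub_cancel_left, Finset.sum_range_add]
    have e2 : |∑ n ∈ Finset.range (L - M), G (M + n)| ≤ C * R := by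
      calc |∑ n ∈ Finset.range (L - M), G (M + n)|
          ≤ ∑ n ∈ Finset.range (L - M), |G (M + n)| := Finset.abs_sum_le_sum_abs _ _
        _ ≤ ∑ n ∈ Finset.range (L - M), C * s (n + M) := by
            refine Finset.sum_le_sum fun n hn => ?_
            have := Finset.mem_range.1 hn
            rw [add_comm M n]
            exact g2 (n + M) (by omega)
        _ = C * ∑ n ∈ Finset.range (L - M), s (n + M) := by rw [Finset.mul_sum]
        _ ≤ C * R := by
            refine mul_le_mul_of_nonneg_left ?_ hC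
            rw [hR]
            exact hsM.sum_le_tsum _ fun n _ => hs0 _
    have e3 : |∑ n ∈ Finset.range M, G n - ∑ n ∈ Finset.range M, a n n| ≤
        C * Θ / ((k : ℝ) + 1) + M * ε := by
      rw [← Finset.sum_sub_distrib]
      calc |∑ n ∈ Finset.range M, (G n - a n n)|
          ≤ ∑ n ∈ Finset.range M, |G n - a n n| := Finset.abs_sum_le_sum_abs _ _
        _ ≤ ∑ n ∈ Finset.range M, (C * s n / ((k : ℝ) + 1) + ε) :=
            Finset.sum_le_sum fun n hn => g1 n (Finset.mem_range.1 hn)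
        _ = C * (∑ n ∈ Finset.range M, s n) / ((k : ℝ) + 1) + M * ε := by
            rw [Finset.sum_add_distrib, ← Finset.sum_div, ← Finset.mul_sum, Finset.sum_const,
              Finset.card_range, nsmul_eq_mul]
        _ ≤ C * Θ / ((k : ℝ) + 1) + M * ε := by
            gcongr
            rw [hΘ]
            exact hs.sum_le_tsum _ fun n _ => hs0 n
    have e4 : ∑ n ∈ Finset.range M, a n n = ∑ n ∈ Finset.range L, G n -
        (∑ n ∈ Finset.range M, G n - ∑ n ∈ Finset.range M, a n n) -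
        ∑ n ∈ Finset.range (L - M), G (M + n) := by
      rw [e1]
      ring
    rw [e4]
    have t1 := abs_sub (∑ n ∈ Finset.range L, G n -
        (∑ n ∈ Finset.range M, G n - ∑ n ∈ Finset.range M, a n n))
        (∑ n ∈ Finset.range (L - M), G (M + n))
    have t2 := abs_sub (∑ n ∈ Finset.range L, G n)
        (∑ n ∈ Finset.range M, G n - ∑ n ∈ Finset.range M, a n n)
    linarith
  -- the limit
  have hM2 : |∑ n ∈ Finset.range M, a n n| ≤ C * Θ / ((k : ℝ) + 1) + M * ε + C * R := by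
    have h1 : Tendsto (fun L => |∑ n ∈ Finset.range L, lam k n (T (sv k L n))| +
        (C * Θ / ((k : ℝ) + 1) + M * ε + C * R)) atTop
        (𝓝 (|0| + (C * Θ / ((k : ℝ) + 1) + M * ε + C * R))) := hlim.abs.add_const _
    rw [abs_zero, zero_add] at h1
    refine ge_of_tendsto h1 ?_
    filter_upwards [eventually_ge_atTop M] with L hL
    exact hbound L hL
  have haS : Summable fun n => a n n := Summable.of_norm_bounded (g := s) hs fun n => has n n
  have htrM : τ ≤ |∑ n ∈ Finset.range M, a n n| + R := by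
    rw [hτ, ← haS.sum_add_tsum_nat_add M]
    refine (abs_add_le _ _).trans ?_
    gcongr
    have h1 : Summable fun n => a (n + M) (n + M) := (summable_nat_add_iff M).2 haS
    rw [hR]
    calc |∑' n, a (n + M) (n + M)| ≤ ∑' n, |a (n + M) (n + M)| := by
          have := norm_tsum_le_tsum_norm (f := fun n => a (n + M) (n + M))
            (by simpa [Real.norm_eq_abs] using h1.abs)
          simpa [Real.norm_eq_abs] using this
      _ ≤ ∑' n, s (n + M) := h1.abs.tsum_le_tsum (fun n => has _ _) hsM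
  nlinarith

end Pool.Agent.helper26.C0
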