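import Pool.Agent.helper26.C0.AP
import Pool.Agent.helper26.C0.Abs

/-!
# The subspace fails the bounded approximation property
-/

set_option autoImplicit false

namespace Pool.Agent.helper26.C0

open Filter Topology Set Function
open scoped ENNReal

variable {a : ℕ → ℕ → ℝ}

/-- The embedding of `E L` in the `k`th block, on the index set. -/
noncomputable def sI (k L : ℕ) (x : ℕ → ℝ) (q : Idx) : ℝ :=
  if q.1 = k then
    (match q.2.1 with
      | none => ((k : ℝ) + 1) * x q.2.2
      | some n => if n < L then -x q.2.2 else 0)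
  else 0

theorem sI_none (k L : ℕ) (x : ℕ → ℝ) (j : ℕ) : sI k L x (k, none, j) = ((k : ℝ) + 1) * x j := by
  simp [sI]

theorem sI_some (k L : ℕ) (x : ℕ → ℝ) (n j : ℕ) :
    sI k L x (k, some n, j) = if n < L then -x j else 0 := by
  simp [sI]

theorem sI_zero {k L : ℕ} {x : ℕ → ℝ} {k' : ℕ} {o : Option ℕ} {j : ℕ} (h : k' ≠ k) :
    sI k L x (k', o, j) = 0 := by
  simp [sI, h]

/-- A finite set containing the supports. -/
def Gs (a : ℕ → ℕ → ℝ) (k L : ℕ) : Set Idx :=
  {k} ×ˢ ((insert none (some '' {n | n < L})) ×ˢ J a L)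

theorem Gs_finite (ha : ∀ n, (support (a n)).Finite) (k L : ℕ) : (Gs a k L).Finite :=
  (finite_singleton k).prod ((((finite_lt_nat L).image some).insert none).prod (J_finite ha L))

theorem sI_supp (k L : ℕ) {x : ℕ → ℝ} (hx : x ∈ E a L) : support (sI k L x) ⊆ Gs a k L := by
  rintro ⟨k', o, j⟩ hq
  rw [mem_support] at hq
  by_cases hk : k' = k
  · subst hk
    by_cases hj : j ∈ J a L
    · cases o with
      | none => exact ⟨rfl, Or.inl rfl, hj⟩
      | some n =>
        rw [sI_some] at hq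
        by_cases hn : n < L
        · exact ⟨rfl, Or.inr ⟨n, hn, rfl⟩, hj⟩
        · rw [if_neg hn] at hq
          exact absurd rfl hq
    · exfalso
      apply hq
      cases o with
      | none => rw [sI_none, E_supp hx hj, mul_zero]
      | some n => rw [sI_some, E_supp hx hj, neg_zero, ite_self]
  · exact absurd (sI_zero hk) hq

theorem sI_mem (k L : ℕ) {x : ℕ → ℝ} (hx : x ∈ E a L) (hf : (support (sI k L x)).Finite) :
    mkI (sI k L x) hf ∈ S a := by
  refine mkI_mem hf fun k' n => ?_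
  by_cases hk : k' = k
  · subst hk
    by_cases hn : n < L
    · have : (fun j => sI k' L x (k', none, j) / ((k' : ℝ) + 1) + sI k' L x (k', some n, j)) =
          0 := by
        funext j
        rw [sI_none, sI_some, if_pos hn, Pi.zero_apply]
        field_simp
        ring
      rw [this]
      exact zero_mem _
    · have : (fun j => sI k' L x (k', none, j) / ((k' : ℝ) + 1) + sI k' L x (k', some n, j)) =
          x := by
        funext j
        rw [sI_none, sI_some, if_neg hn]
        field_simp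
        ring
      rw [this]
      exact E_mono (not_lt.1 hn) hx
  · have : (fun j => sI k L x (k', none, j) / ((k' : ℝ) + 1) + sI k L x (k', some n, j)) =
        0 := by
      funext j
      rw [sI_zero hk, sI_zero hk]
      simp
    rw [this]
    exact zero_mem _

theorem sI_add (k L : ℕ) (x y : ℕ → ℝ) (q : Idx) :
    sI k L (x + y) q = sI k L x q + sI k L y q := by
  obtain ⟨k', o, j⟩ := q
  by_cases hk : k' = k
  · subst hk
    cases o with
    | none =>
      rw [sI_none, sI_none, sI_none, Pi.add_apply]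
      ring
    | some n =>
      rw [sI_some, sI_some, sI_some, Pi.add_apply]
      split_ifs
      · ring
      · ring
  · rw [sI_zero hk, sI_zero hk, sI_zero hk, add_zero]

theorem sI_smul (k L : ℕ) (c : ℝ) (x : ℕ → ℝ) (q : Idx) :
    sI k L (c • x) q = c * sI k L x q := by
  obtain ⟨k', o, j⟩ := q
  by_cases hk : k' = k
  · subst hk
    cases o with
    | none =>
      rw [sI_none, sI_none, Pi.smul_apply, smul_eq_mul]
      ring
    | some n =>
      rw [sI_some, sI_some, Pi.smul_apply, smul_eq_mul]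
      split_ifs
      · ring
      · ring
  · rw [sI_zero hk, sI_zero hk, mul_zero]

theorem sI_sum (k L : ℕ) (c : ℕ → ℝ) (b : ℕ → ℕ → ℝ) (F : Finset ℕ) (q : Idx) :
    sI k L (∑ n ∈ F, c n • b n) q = ∑ n ∈ F, c n * sI k L (b n) q := by
  classical
  induction F using Finset.induction_on with
  | empty =>
    have := sI_smul k L 0 0 q
    simpa using this
  | insert n F hn ih =>
    rw [Finset.sum_insert hn, Finset.sum_insert hn, sI_add, sI_smul, ih]

/-- The embedding of `E L` in the `k`th block. -/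
noncomputable def sec (ha : ∀ n, (support (a n)).Finite) (k L : ℕ) : E a L →ₗ[ℝ] S a where
  toFun x := ⟨mkI (sI k L x) ((Gs_finite ha k L).subset (sI_supp k L x.2)), sI_mem k L x.2 _⟩
  map_add' v w := by
    refine S_ext fun q => ?_
    rw [map_add, cd_mkI, cd_mkI, cd_mkI]
    exact sI_add k L v w q
  map_smul' c w := by
    refine S_ext fun q => ?_
    rw [RingHom.id_apply, map_smul, cd_mkI, cd_mkI, smul_eq_mul]
    exact sI_smul k L c w q

theorem sec_apply (ha : ∀ n, (support (a n)).Finite) (k L : ℕ) (x : E a L) (q : Idx) :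
    cd q (sec ha k L x) = sI k L x q := cd_mkI _ _ _ q

theorem norm_sec (ha : ∀ n, (support (a n)).Finite) (k L : ℕ) (x : E a L) {c : ℝ}
    (hx : ∀ j, |(x : ℕ → ℝ) j| ≤ c) : ‖sec ha k L x‖ ≤ ((k : ℝ) + 1) * c := by
  have hc : 0 ≤ c := (abs_nonneg _).trans (hx 0)
  refine S_norm_le (by positivity) fun q => ?_
  rw [sec_apply]
  obtain ⟨k', o, j⟩ := q
  by_cases hk : k' = k
  · subst hk
    cases o with
    | none =>
      rw [sI_none, abs_mul, abs_of_pos (by positivity : (0 : ℝ) < (k' : ℝ) + 1)]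
      exact mul_le_mul_of_nonneg_left (hx j) (by positivity)
    | some n =>
      rw [sI_some]
      have h1 : c ≤ ((k' : ℝ) + 1) * c := by
        have : (0 : ℝ) ≤ k' * c := by positivity
        linarith
      split_ifs
      · rw [abs_neg]
        exact (hx j).trans h1
      · rw [abs_zero]
        positivity
  · rw [sI_zero hk, abs_zero]
    positivity

theorem norm_sec_sub (ha : ∀ n, (support (a n)).Finite) (k : ℕ) {L M : ℕ} (x : E a L)
    (y : E a M) (hxy : (x : ℕ → ℝ) = y) {c : ℝ} (hx : ∀ j, |(x : ℕ → ℝ) j| ≤ c) :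
    ‖sec ha k L x - sec ha k M y‖ ≤ c := by
  have hc : 0 ≤ c := (abs_nonneg _).trans (hx 0)
  refine S_norm_le hc fun q => ?_
  rw [map_sub, sec_apply, sec_apply, ← hxy]
  obtain ⟨k', o, j⟩ := q
  by_cases hk : k' = k
  · subst hk
    cases o with
    | none => rw [sI_none, sI_none, sub_self, abs_zero]; exact hc
    | some n =>
      rw [sI_some, sI_some]
      split_ifs
      · rw [sub_self, abs_zero]; exact hc
      · rw [sub_zero, abs_neg]; exact hx j
      · rw [zero_sub, abs_neg, abs_neg]; exact hx j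
      · rw [sub_self, abs_zero]; exact hc
  · rw [sI_zero hk, sI_zero hk, sub_self, abs_zero]
    exact hc

/-- The coordinates of the limit of the `k`th block. -/
noncomputable def lam (k n : ℕ) : S a →ₗ[ℝ] ℝ := ((k : ℝ) + 1)⁻¹ • cd (k, none, n)

theorem lam_apply (k n : ℕ) (w : S a) : lam k n w = cd (k, none, n) w / ((k : ℝ) + 1) := by
  unfold lam
  rw [LinearMap.smul_apply, smul_eq_mul, div_eq_inv_mul]

theorem lam_le (k n : ℕ) (w : S a) : |lam k n w| ≤ ‖w‖ / ((k : ℝ) + 1) := by
  rw [lam_apply, abs_div, abs_of_pos (by positivity : (0 : ℝ) < (k : ℝ) + 1)]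
  exact div_le_div_of_nonneg_right (cd_le w _) (by positivity)

theorem lam_sec (ha : ∀ n, (support (a n)).Finite) (k L : ℕ) (x : E a L) (n : ℕ) :
    lam k n (sec ha k L x) = (x : ℕ → ℝ) n := by
  rw [lam_apply, sec_apply, sI_none]
  field_simp

theorem rel_E (hrel : ∀ i m, ∑' n, a i n * a n m = 0) {N : ℕ} {v : ℕ → ℝ} (hv : v ∈ E a N)
    {L : ℕ} (hL : ∀ n ∈ J a N, n < L) (j : ℕ) : ∑ n ∈ Finset.range L, v n * a n j = 0 := by
  induction hv using Submodule.span_induction with
  | mem v hv =>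
    obtain ⟨i, hi, rfl⟩ := hv
    rw [← hrel i j]
    symm
    refine tsum_eq_sum fun n hn => ?_
    by_contra h
    apply hn
    rw [Finset.mem_range]
    refine hL n (mem_biUnion hi ?_)
    rw [mem_support]
    exact fun h0 => h (by rw [h0, zero_mul])
  | zero => simp
  | add v w _ _ h1 h2 =>
    simp only [Pi.add_apply, add_mul]
    rw [Finset.sum_add_distrib, h1, h2, add_zero]
  | smul c v _ h1 =>
    simp only [Pi.smul_apply, smul_eq_mul, mul_assoc]
    rw [← Finset.mul_sum, h1, mul_zero]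

/-- The vectors `∑_{n < L} y(n) a_n` tend to zero for the limits `y` of elements of `S`. -/
theorem vanish {s : ℕ → ℝ} (hs : Summable s) (has : ∀ n m, |a n m| ≤ s n)
    (ha : ∀ n, (support (a n)).Finite) (hrel : ∀ i m, ∑' n, a i n * a n m = 0) (k : ℕ) (v : S a)
    {δ : ℝ} (hδ : 0 < δ) :
    ∀ᶠ L in atTop, ∀ j, |∑ n ∈ Finset.range L, lam k n v * a n j| ≤ δ := by
  have hs0 : ∀ n, 0 ≤ s n := fun n => (abs_nonneg _).trans (has n 0)
  obtain ⟨Θ, hΘ⟩ : ∃ Θ : ℝ, Θ = ∑' n, s n := ⟨_, rfl⟩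
  have hΘ0 : 0 ≤ Θ := by rw [hΘ]; exact tsum_nonneg hs0
  obtain ⟨F, hF, hFv⟩ := compact_small (isCompact_singleton (x := v))
    (by positivity : 0 < δ / (Θ + 1))
  obtain ⟨N, hN⟩ : ∃ N : ℕ, ∀ j, (k, some N, j) ∉ F := by
    obtain ⟨B, hB⟩ := (hF.image fun q : Idx => q.2.1.getD 0).bddAbove
    refine ⟨B + 1, fun j hj => ?_⟩
    have := hB ⟨_, hj, rfl⟩
    simp at this
  obtain ⟨L₀, hL₀⟩ := (J_finite ha N).bddAbove
  filter_upwards [eventually_gt_atTop L₀] with L hL j
  have h1 : ∀ n, lam k n v = z k N (v : Linf) n - cd (k, some N, n) v := fun n => by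
    rw [z_cd, lam_apply]
    ring
  have h2 : ∑ n ∈ Finset.range L, lam k n v * a n j =
      (∑ n ∈ Finset.range L, z k N (v : Linf) n * a n j) -
      ∑ n ∈ Finset.range L, cd (k, some N, n) v * a n j := by
    rw [← Finset.sum_sub_distrib]
    refine Finset.sum_congr rfl fun n _ => ?_
    rw [h1]
    ring
  rw [h2, rel_E hrel (v.2.2 k N) (fun n hn => lt_of_le_of_lt (hL₀ hn) hL) j, zero_sub, abs_neg]
  calc |∑ n ∈ Finset.range L, cd (k, some N, n) v * a n j|
      ≤ ∑ n ∈ Finset.range L, |cd (k, some N, n) v * a n j| := Finset.abs_sum_le_sum_abs _ _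
    _ ≤ ∑ n ∈ Finset.range L, δ / (Θ + 1) * s n := by
        refine Finset.sum_le_sum fun n _ => ?_
        rw [abs_mul]
        exact mul_le_mul (hFv v rfl _ (hN n)) (has n j) (abs_nonneg _) (by positivity)
    _ = δ / (Θ + 1) * ∑ n ∈ Finset.range L, s n := by rw [Finset.mul_sum]
    _ ≤ δ / (Θ + 1) * Θ := by
        refine mul_le_mul_of_nonneg_left ?_ (by positivity)
        rw [hΘ]
        exact hs.sum_le_tsum _ fun n _ => hs0 n
    _ ≤ δ := by
        rw [div_mul_eq_mul_div, div_le_iff₀ (by positivity)]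
        nlinarith

/-- The `n`th row in the `k`th block. -/
noncomputable def sv (ha : ∀ n, (support (a n)).Finite) (k L n : ℕ) : S a :=
  if h : n < L then sec ha k L ⟨a n, mem_E h⟩ else 0

theorem sv_of_lt (ha : ∀ n, (support (a n)).Finite) (k : ℕ) {L n : ℕ} (h : n < L) :
    sv ha k L n = sec ha k L ⟨a n, mem_E h⟩ := dif_pos h

theorem sv_sum (ha : ∀ n, (support (a n)).Finite) (k L : ℕ) (c : ℕ → ℝ) :
    ∃ x : E a L, (x : ℕ → ℝ) = ∑ n ∈ Finset.range L, c n • a n ∧
      sec ha k L x = ∑ n ∈ Finset.range L, c n • sv ha k L n := by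
  refine ⟨⟨∑ n ∈ Finset.range L, c n • a n,
      Submodule.sum_mem _ fun n hn => Submodule.smul_mem _ _ (mem_E (Finset.mem_range.1 hn))⟩,
      rfl, ?_⟩
  refine S_ext fun q => ?_
  rw [map_sum, sec_apply, sI_sum]
  refine Finset.sum_congr rfl fun n hn => ?_
  rw [map_smul, smul_eq_mul, sv_of_lt ha k (Finset.mem_range.1 hn), sec_apply]

theorem vanish' {s : ℕ → ℝ} (hs : Summable s) (has : ∀ n m, |a n m| ≤ s n)
    (ha : ∀ n, (support (a n)).Finite) (hrel : ∀ i m, ∑' n, a i n * a n m = 0) (k : ℕ) (v : S a) :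
    Tendsto (fun L => ∑ n ∈ Finset.range L, lam k n v • sv ha k L n) atTop (𝓝 0) := by
  rw [Metric.tendsto_atTop]
  intro ε hε
  have hk : (0 : ℝ) < (k : ℝ) + 1 := by positivity
  obtain ⟨L₀, hL₀⟩ := eventually_atTop.1
    (vanish hs has ha hrel k v (by positivity : 0 < ε / ((k : ℝ) + 1) / 2))
  refine ⟨L₀, fun L hL => ?_⟩
  obtain ⟨x, hx1, hx2⟩ := sv_sum ha k L (fun n => lam k n v)
  rw [dist_zero_right, ← hx2]
  refine (norm_sec ha k L x (c := ε / ((k : ℝ) + 1) / 2) fun j => ?_).trans_lt ?_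
  · rw [hx1, Finset.sum_apply]
    exact hL₀ L hL j
  · have : ((k : ℝ) + 1) * (ε / ((k : ℝ) + 1) / 2) = ε / 2 := by field_simp
    rw [this]
    linarith

/-- The subspace fails the bounded approximation property. -/
theorem not_bap {s : ℕ → ℝ} (hs : Summable s) (has : ∀ n m, |a n m| ≤ s n)
    (ha : ∀ n, (support (a n)).Finite) (hrel : ∀ i m, ∑' n, a i n * a n m = 0)
    (htr : ∑' n, a n n ≠ 0) (C : ℝ) (hC : 0 ≤ C)
    (h : ∀ K : Set (S a), IsCompact K → ∀ ε : ℝ, 0 < ε → ∃ T : S a →L[ℝ] S a,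
      FiniteDimensional ℝ (LinearMap.range (T : S a →ₗ[ℝ] S a)) ∧ ‖T‖ ≤ C ∧
        ∀ x ∈ K, ‖T x - x‖ ≤ ε) : False := by
  refine abs_contra (V := S a) hs has htr C hC lam (sv ha) (vanish' hs has ha hrel) lam_le
    (fun k L n hn => ?_) (fun k L M n hL hM => ?_) (fun k L n hn => ?_) h
  · rw [sv_of_lt ha k hn]
    exact norm_sec ha k L ⟨a n, mem_E hn⟩ (c := s n) fun j => has n j
  · rw [sv_of_lt ha k hL, sv_of_lt ha k hM]
    exact norm_sec_sub ha k ⟨a n, mem_E hL⟩ ⟨a n, mem_E hM⟩ rfl (c := s n) fun j => has n j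
  · rw [sv_of_lt ha k hn, lam_sec]

end Pool.Agent.helper26.C0
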