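import Pool.Agent.helper26.C0.Space

/-!
# The subspace has the approximation property
-/

set_option autoImplicit false

namespace Pool.Agent.helper26.C0

open Filter Topology Set Function
open scoped ENNReal

variable {a : ℕ → ℕ → ℝ}

theorem supp_en {g : Idx → ℝ} (hg : (support g).Finite) :
    (support fun i => g (en.symm i)).Finite :=
  hg.preimage en.symm.injective.injOn

/-- The element of `ℓ_∞` given by a finitely supported function on the index set. -/
noncomputable def mkI (g : Idx → ℝ) (hg : (support g).Finite) : Linf :=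
  mkL (fun i => g (en.symm i)) (supp_en hg)

theorem mkI_apply (g : Idx → ℝ) (hg : (support g).Finite) (q : Idx) : mkI g hg (en q) = g q := by
  unfold mkI
  rw [mkL_apply, Equiv.symm_apply_apply]

theorem mkI_z (g : Idx → ℝ) (hg : (support g).Finite) (k n j : ℕ) :
    z k n (mkI g hg) j = g (k, none, j) / ((k : ℝ) + 1) + g (k, some n, j) := by
  rw [z_apply, mkI_apply, mkI_apply]

theorem mkI_mem {g : Idx → ℝ} (hg : (support g).Finite)
    (h : ∀ k n, (fun j => g (k, none, j) / ((k : ℝ) + 1) + g (k, some n, j)) ∈ E a n) :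
    mkI g hg ∈ S a := by
  refine ⟨mkL_tendsto _ _, fun k n => ?_⟩
  rw [show z k n (mkI g hg) = fun j => g (k, none, j) / ((k : ℝ) + 1) + g (k, some n, j) from
    funext fun j => mkI_z g hg k n j]
  exact h k n

theorem Linf_ext {v w : Linf} (h : ∀ q : Idx, v (en q) = w (en q)) : v = w := by
  apply lp.ext
  funext i
  have := h (en.symm i)
  rwa [Equiv.apply_symm_apply] at this

theorem Linf_norm_le {v : Linf} {C : ℝ} (hC : 0 ≤ C) (h : ∀ q : Idx, |v (en q)| ≤ C) :
    ‖v‖ ≤ C := by
  refine lp.norm_le_of_forall_le hC fun i => ?_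
  have := h (en.symm i)
  rwa [Equiv.apply_symm_apply] at this

theorem Linf_apply_le (v : Linf) (q : Idx) : |v (en q)| ≤ ‖v‖ :=
  lp.norm_apply_le_norm ENNReal.top_ne_zero v (en q)

/-- The coordinate functionals on the subspace. -/
noncomputable def cd (q : Idx) : S a →ₗ[ℝ] ℝ where
  toFun w := (w : Linf) (en q)
  map_add' _ _ := rfl
  map_smul' _ _ := rfl

theorem cd_apply (q : Idx) (w : S a) : cd q w = (w : Linf) (en q) := rfl

theorem cd_le (w : S a) (q : Idx) : |cd q w| ≤ ‖w‖ := Linf_apply_le _ _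

theorem S_ext {v w : S a} (h : ∀ q, cd q v = cd q w) : v = w :=
  Subtype.ext (Linf_ext h)

theorem S_norm_le {v : S a} {C : ℝ} (hC : 0 ≤ C) (h : ∀ q, |cd q v| ≤ C) : ‖v‖ ≤ C :=
  Linf_norm_le hC h

theorem cd_mkI (g : Idx → ℝ) (hg : (support g).Finite) (h : mkI g hg ∈ S a) (q : Idx) :
    cd q (⟨mkI g hg, h⟩ : S a) = g q := mkI_apply g hg q

theorem z_cd (k n : ℕ) (w : S a) (j : ℕ) :
    z k n (w : Linf) j = cd (k, none, j) w / ((k : ℝ) + 1) + cd (k, some n, j) w := rfl

/-- The truncation on the index set. -/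
noncomputable def opI (k₀ m : ℕ) (w : Linf) (q : Idx) : ℝ :=
  if q.1 < k₀ then
    (match q.2.1 with
      | none => ((q.1 : ℝ) + 1) * z q.1 m w q.2.2
      | some n => if n < m then z q.1 n w q.2.2 - z q.1 m w q.2.2 else 0)
  else 0

theorem opI_none {k₀ m : ℕ} {w : Linf} {k j : ℕ} (hk : k < k₀) :
    opI k₀ m w (k, none, j) = ((k : ℝ) + 1) * z k m w j := by
  simp [opI, hk]

theorem opI_some {k₀ m : ℕ} {w : Linf} {k n j : ℕ} (hk : k < k₀) :
    opI k₀ m w (k, some n, j) = if n < m then z k n w j - z k m w j else 0 := by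
  simp [opI, hk]

theorem opI_zero {k₀ m : ℕ} {w : Linf} {k : ℕ} {o : Option ℕ} {j : ℕ} (hk : ¬ k < k₀) :
    opI k₀ m w (k, o, j) = 0 := by
  simp [opI, hk]

/-- The finite set of indices that the truncation uses. -/
def Fs (a : ℕ → ℕ → ℝ) (k₀ m : ℕ) : Set Idx :=
  {k | k < k₀} ×ˢ ((insert none (some '' {n | n < m})) ×ˢ J a m)

theorem Fs_finite (ha : ∀ n, (support (a n)).Finite) (k₀ m : ℕ) : (Fs a k₀ m).Finite :=
  (finite_lt_nat k₀).prod ((((finite_lt_nat m).image some).insert none).prod (J_finite ha m))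

theorem opI_supp (k₀ m : ℕ) {w : Linf} (hw : w ∈ S a) :
    support (opI k₀ m w) ⊆ Fs a k₀ m := by
  rintro ⟨k, o, j⟩ hq
  rw [mem_support] at hq
  by_cases hk : k < k₀
  · by_cases hj : j ∈ J a m
    · cases o with
      | none => exact ⟨hk, Or.inl rfl, hj⟩
      | some n =>
        rw [opI_some hk] at hq
        by_cases hn : n < m
        · exact ⟨hk, Or.inr ⟨n, hn, rfl⟩, hj⟩
        · rw [if_neg hn] at hq
          exact absurd rfl hq
    · exfalso
      apply hq
      cases o with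
      | none => rw [opI_none hk, E_supp (hw.2 k m) hj, mul_zero]
      | some n =>
        rw [opI_some hk]
        split_ifs with hn
        · rw [E_supp (E_mono hn.le (hw.2 k n)) hj, E_supp (hw.2 k m) hj, sub_zero]
        · rfl
  · exact absurd (opI_zero hk) hq

theorem opI_mem (k₀ m : ℕ) {w : Linf} (hw : w ∈ S a) (hf : (support (opI k₀ m w)).Finite) :
    mkI (opI k₀ m w) hf ∈ S a := by
  refine mkI_mem hf fun k n => ?_
  by_cases hk : k < k₀
  · have hk1 : (k : ℝ) + 1 ≠ 0 := by positivity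
    by_cases hn : n < m
    · have : (fun j => opI k₀ m w (k, none, j) / ((k : ℝ) + 1) + opI k₀ m w (k, some n, j)) =
          z k n w := by
        funext j
        rw [opI_none hk, opI_some hk, if_pos hn]
        field_simp
        ring
      rw [this]
      exact hw.2 k n
    · have : (fun j => opI k₀ m w (k, none, j) / ((k : ℝ) + 1) + opI k₀ m w (k, some n, j)) =
          z k m w := by
        funext j
        rw [opI_none hk, opI_some hk, if_neg hn]
        field_simp
        ring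
      rw [this]
      exact E_mono (not_lt.1 hn) (hw.2 k m)
  · have : (fun j => opI k₀ m w (k, none, j) / ((k : ℝ) + 1) + opI k₀ m w (k, some n, j)) =
        0 := by
      funext j
      rw [opI_zero hk, opI_zero hk]
      simp
    rw [this]
    exact zero_mem _

theorem opI_add (k₀ m : ℕ) (v w : Linf) (q : Idx) :
    opI k₀ m (v + w) q = opI k₀ m v q + opI k₀ m w q := by
  obtain ⟨k, o, j⟩ := q
  by_cases hk : k < k₀
  · cases o with
    | none =>
      rw [opI_none hk, opI_none hk, opI_none hk, map_add, Pi.add_apply]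
      ring
    | some n =>
      rw [opI_some hk, opI_some hk, opI_some hk, map_add, map_add, Pi.add_apply, Pi.add_apply]
      split_ifs
      · ring
      · ring
  · rw [opI_zero hk, opI_zero hk, opI_zero hk, add_zero]

theorem opI_smul (k₀ m : ℕ) (c : ℝ) (w : Linf) (q : Idx) :
    opI k₀ m (c • w) q = c * opI k₀ m w q := by
  obtain ⟨k, o, j⟩ := q
  by_cases hk : k < k₀
  · cases o with
    | none =>
      rw [opI_none hk, opI_none hk, map_smul, Pi.smul_apply, smul_eq_mul]
      ring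
    | some n =>
      rw [opI_some hk, opI_some hk, map_smul, map_smul, Pi.smul_apply, Pi.smul_apply, smul_eq_mul,
        smul_eq_mul]
      split_ifs
      · ring
      · ring
  · rw [opI_zero hk, opI_zero hk, mul_zero]

/-- The truncation operator. -/
noncomputable def opL (ha : ∀ n, (support (a n)).Finite) (k₀ m : ℕ) : S a →ₗ[ℝ] S a where
  toFun w := ⟨mkI (opI k₀ m w) ((Fs_finite ha k₀ m).subset (opI_supp k₀ m w.2)),
    opI_mem k₀ m w.2 _⟩
  map_add' v w := by
    refine S_ext fun q => ?_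
    rw [map_add, cd_mkI, cd_mkI, cd_mkI]
    exact opI_add k₀ m v w q
  map_smul' c w := by
    refine S_ext fun q => ?_
    rw [RingHom.id_apply, map_smul, cd_mkI, cd_mkI, smul_eq_mul]
    exact opI_smul k₀ m c w q

theorem opL_apply (ha : ∀ n, (support (a n)).Finite) (k₀ m : ℕ) (w : S a) (q : Idx) :
    cd q (opL ha k₀ m w) = opI k₀ m w q := cd_mkI _ _ _ q

theorem z_abs_le (k n : ℕ) (w : Linf) (j : ℕ) : ((k : ℝ) + 1) * |z k n w j| ≤ ((k : ℝ) + 2) * ‖w‖ := by
  rw [z_apply]
  have h1 := Linf_apply_le w (k, none, j)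
  have h2 := Linf_apply_le w (k, some n, j)
  have hk : (0 : ℝ) < (k : ℝ) + 1 := by positivity
  have h3 : |w (en (k, none, j)) / ((k : ℝ) + 1) + w (en (k, some n, j))| ≤
      |w (en (k, none, j))| / ((k : ℝ) + 1) + |w (en (k, some n, j))| := by
    refine (abs_add_le _ _).trans ?_
    rw [abs_div, abs_of_pos hk]
  calc ((k : ℝ) + 1) * |w (en (k, none, j)) / ((k : ℝ) + 1) + w (en (k, some n, j))|
      ≤ ((k : ℝ) + 1) * (|w (en (k, none, j))| / ((k : ℝ) + 1) + |w (en (k, some n, j))|) :=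
        mul_le_mul_of_nonneg_left h3 hk.le
    _ = |w (en (k, none, j))| + ((k : ℝ) + 1) * |w (en (k, some n, j))| := by
        field_simp
    _ ≤ ‖w‖ + ((k : ℝ) + 1) * ‖w‖ := by gcongr
    _ = ((k : ℝ) + 2) * ‖w‖ := by ring

theorem z_sub (k n m : ℕ) (w : Linf) (j : ℕ) :
    z k n w j - z k m w j = w (en (k, some n, j)) - w (en (k, some m, j)) := by
  rw [z_apply, z_apply]
  ring

/-- The truncation operator as a bounded operator. -/
noncomputable def op (ha : ∀ n, (support (a n)).Finite) (k₀ m : ℕ) : S a →L[ℝ] S a :=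
  (opL ha k₀ m).mkContinuous ((k₀ : ℝ) + 2) fun w => by
    refine S_norm_le (by positivity) fun q => ?_
    obtain ⟨k, o, j⟩ := q
    rw [opL_apply]
    have hw : 0 ≤ ‖w‖ := norm_nonneg _
    by_cases hk : k < k₀
    · have hk' : (k : ℝ) ≤ k₀ := by exact_mod_cast hk.le
      cases o with
      | none =>
        rw [opI_none hk, abs_mul, abs_of_pos (by positivity : (0 : ℝ) < (k : ℝ) + 1)]
        refine (z_abs_le k m w j).trans ?_
        exact mul_le_mul_of_nonneg_right (by linarith) hw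
      | some n =>
        rw [opI_some hk]
        split_ifs
        · rw [z_sub]
          have h1 := Linf_apply_le (w : Linf) (k, some n, j)
          have h2 := Linf_apply_le (w : Linf) (k, some m, j)
          have h3 := abs_sub ((w : Linf) (en (k, some n, j))) ((w : Linf) (en (k, some m, j)))
          have h4 : (0 : ℝ) ≤ k₀ * ‖w‖ := by positivity
          have h5 : ‖(w : Linf)‖ = ‖w‖ := rfl
          rw [h5] at h1 h2
          have h6 : ((k₀ : ℝ) + 2) * ‖w‖ = k₀ * ‖w‖ + 2 * ‖w‖ := by ring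
          rw [h6]
          linarith
        · rw [abs_zero]
          positivity
    · rw [opI_zero hk, abs_zero]
      positivity

theorem op_apply (ha : ∀ n, (support (a n)).Finite) (k₀ m : ℕ) (w : S a) (q : Idx) :
    cd q (op ha k₀ m w) = opI k₀ m w q := opL_apply ha k₀ m w q

theorem op_finite (ha : ∀ n, (support (a n)).Finite) (k₀ m : ℕ) :
    FiniteDimensional ℝ (LinearMap.range (op ha k₀ m : S a →ₗ[ℝ] S a)) := by
  have hfin := Fs_finite ha k₀ m
  have : Finite (Fs a k₀ m) := hfin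
  obtain ⟨r, hr⟩ : ∃ r : LinearMap.range (op ha k₀ m : S a →ₗ[ℝ] S a) →ₗ[ℝ] (Fs a k₀ m → ℝ),
      ∀ v q, r v q = cd (q : Idx) (v : S a) :=
    ⟨{ toFun := fun v q => cd (q : Idx) (v : S a)
       map_add' := fun v w => by funext q; rfl
       map_smul' := fun c v => by funext q; rfl }, fun v q => rfl⟩
  refine FiniteDimensional.of_injective r ?_
  intro v w hvw
  apply Subtype.ext
  refine S_ext fun q => ?_
  by_cases hq : q ∈ Fs a k₀ m
  · have := congrFun hvw ⟨q, hq⟩
    rwa [hr, hr] at this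
  · have h0 : ∀ v : LinearMap.range (op ha k₀ m : S a →ₗ[ℝ] S a),
        cd q (v : S a) = 0 := by
      rintro ⟨_, ⟨u, rfl⟩⟩
      change cd q (op ha k₀ m u) = 0
      rw [op_apply]
      by_contra h
      exact hq (opI_supp k₀ m u.2 h)
    rw [h0, h0]

/-- Uniform smallness on compact sets. -/
theorem compact_small {K : Set (S a)} (hK : IsCompact K) {δ : ℝ} (hδ : 0 < δ) :
    ∃ F : Set Idx, F.Finite ∧ ∀ w ∈ K, ∀ q ∉ F, |cd q w| ≤ δ := by
  obtain ⟨t, htK, htf, ht⟩ := hK.finite_cover_balls (half_pos hδ)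
  have h1 : ∀ v : S a, {q : Idx | ¬ |cd q v| ≤ δ / 2}.Finite := by
    intro v
    have h2 := v.2.1
    rw [Metric.tendsto_atTop] at h2
    obtain ⟨N, hN⟩ := h2 (δ / 2) (half_pos hδ)
    refine ((finite_lt_nat N).preimage en.injective.injOn).subset fun q hq => ?_
    simp only [mem_ofPred_eq, not_le] at hq
    by_contra hcon
    simp only [mem_preimage, mem_ofPred_eq, not_lt] at hcon
    have h3 := hN _ hcon
    rw [Real.dist_eq, sub_zero] at h3
    rw [cd_apply] at hq
    linarith
  refine ⟨⋃ v ∈ t, {q : Idx | ¬ |cd q v| ≤ δ / 2}, htf.biUnion fun v _ => h1 v, ?_⟩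
  intro w hw q hq
  obtain ⟨v, hv, hvw⟩ := mem_iUnion₂.1 (ht hw)
  have h3 : |cd q v| ≤ δ / 2 := by
    by_contra h
    exact hq (mem_biUnion hv h)
  rw [Metric.mem_ball, dist_eq_norm] at hvw
  have h4 := cd_le (w - v) q
  rw [map_sub] at h4
  have h6 := abs_sub_abs_le_abs_sub (cd q w) (cd q v)
  linarith

/-- The approximation property. -/
theorem hasAP (ha : ∀ n, (support (a n)).Finite) (K : Set (S a)) (hK : IsCompact K) (ε : ℝ)
    (hε : 0 < ε) : ∃ T : S a →L[ℝ] S a,
      FiniteDimensional ℝ (LinearMap.range (T : S a →ₗ[ℝ] S a)) ∧ ∀ x ∈ K, ‖T x - x‖ ≤ ε := by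
  obtain ⟨F₁, hF₁, h1⟩ := compact_small hK hε
  obtain ⟨k₀, hk₀⟩ : ∃ k₀ : ℕ, ∀ q ∈ F₁, q.1 < k₀ := by
    obtain ⟨N, hN⟩ := (hF₁.image Prod.fst).bddAbove
    exact ⟨N + 1, fun q hq => Nat.lt_succ_of_le (hN ⟨q, hq, rfl⟩)⟩
  obtain ⟨F₂, hF₂, h2⟩ := compact_small hK (by positivity : 0 < ε / ((k₀ : ℝ) + 1))
  obtain ⟨m, hm⟩ : ∃ m : ℕ, ∀ k n j, (k, some n, j) ∈ F₂ → n < m := by
    obtain ⟨N, hN⟩ := (hF₂.image fun q : Idx => q.2.1.getD 0).bddAbove
    refine ⟨N + 1, fun k n j hq => Nat.lt_succ_of_le ?_⟩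
    have := hN ⟨_, hq, rfl⟩
    simpa using this
  have hδ : ε / ((k₀ : ℝ) + 1) ≤ ε := by
    rw [div_le_iff₀ (by positivity)]
    have : (0 : ℝ) ≤ ε * k₀ := by positivity
    linarith
  refine ⟨op ha k₀ m, op_finite ha k₀ m, fun w hw => ?_⟩
  refine S_norm_le hε.le fun q => ?_
  obtain ⟨k, o, j⟩ := q
  rw [map_sub, op_apply]
  have hsmall : ∀ n, ¬ n < m → |cd (k, some n, j) w| ≤ ε / ((k₀ : ℝ) + 1) :=
    fun n hn => h2 w hw _ fun hq => hn (hm k n j hq)
  by_cases hk : k < k₀
  · have hk' : (k : ℝ) + 1 ≤ (k₀ : ℝ) + 1 := by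
      have : (k : ℝ) ≤ k₀ := by exact_mod_cast hk.le
      linarith
    cases o with
    | none =>
      rw [opI_none hk, z_cd]
      have e1 : ((k : ℝ) + 1) * (cd (k, none, j) w / ((k : ℝ) + 1) +
          cd (k, some m, j) w) - cd (k, none, j) w =
          ((k : ℝ) + 1) * cd (k, some m, j) w := by
        field_simp
        ring
      rw [e1, abs_mul, abs_of_pos (by positivity : (0 : ℝ) < (k : ℝ) + 1)]
      calc ((k : ℝ) + 1) * |cd (k, some m, j) w|
          ≤ ((k₀ : ℝ) + 1) * (ε / ((k₀ : ℝ) + 1)) :=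
            mul_le_mul hk' (hsmall m (lt_irrefl m)) (abs_nonneg _) (by positivity)
        _ = ε := by field_simp
    | some n =>
      rw [opI_some hk]
      split_ifs with hn
      · rw [z_cd, z_cd]
        have e1 : cd (k, none, j) w / ((k : ℝ) + 1) + cd (k, some n, j) w -
            (cd (k, none, j) w / ((k : ℝ) + 1) + cd (k, some m, j) w) -
            cd (k, some n, j) w = -cd (k, some m, j) w := by ring
        rw [e1, abs_neg]
        exact (hsmall m (lt_irrefl m)).trans hδ
      · rw [zero_sub, abs_neg]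
        exact (hsmall n hn).trans hδ
  · rw [opI_zero hk, zero_sub, abs_neg]
    exact h1 w hw _ fun hq => hk (hk₀ _ hq)

end Pool.Agent.helper26.C0
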