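import Pool.Agent.helper26.H27.Enflo3

/-!
# A matrix of Enflo-Davie type
-/

set_option autoImplicit false

namespace Pool.Agent.helper26.C0

open Filter Topology Set Function

/-- An infinite matrix with finitely supported rows of summable size, square zero and nonzero
trace. -/
theorem exists_matrix : ∃ (a : ℕ → ℕ → ℝ) (s : ℕ → ℝ), Summable s ∧ (∀ n m, |a n m| ≤ s n) ∧
    (∀ n, (support (a n)).Finite) ∧ (∀ i m, ∑' n, a i n * a n m = 0) ∧ ∑' n, a n n ≠ 0 := by
  obtain ⟨X, _, _, x, ι, f, A, w, -, hw0, hw, hf, hA, hsupp, hrel, htr⟩ :=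
    Pool.Agent.helper26.H27.Enflo.exists_data
  have hcount : Countable ι := by
    have h1 := hw.countable_support
    have h2 : support w = univ := by
      ext i
      simp [(hw0 i).ne']
    rw [h2] at h1
    exact countable_univ_iff.1 h1
  obtain ⟨e, he⟩ := hcount.exists_injective_nat
  have hAs : Summable fun i => ‖A i‖ := by
    refine Summable.of_norm_bounded_eventually (g := w) hw ?_
    have h1 : ∀ᶠ i in cofinite, ‖A i‖ / w i < 1 := hA.eventually (gt_mem_nhds one_pos)
    filter_upwards [h1] with i hi
    rw [norm_norm]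
    rw [div_lt_one (hw0 i)] at hi
    exact hi.le
  obtain ⟨s, hs⟩ : ∃ s : ℕ → ℝ, s = extend e (fun i => ‖A i‖) 0 := ⟨_, rfl⟩
  obtain ⟨a, ha⟩ : ∃ a : ℕ → ℕ → ℝ,
      a = extend e (fun i => extend e (fun j => f j (A i)) 0) 0 := ⟨_, rfl⟩
  have ha1 : ∀ i, a (e i) = extend e (fun j => f j (A i)) 0 := fun i => by
    rw [ha, he.extend_apply]
  have ha2 : ∀ i j, a (e i) (e j) = f j (A i) := fun i j => by
    rw [ha1, he.extend_apply]
  have ha3 : ∀ n, n ∉ range e → a n = 0 := fun n hn => by
    rw [ha, extend_apply' _ _ _ hn]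
    rfl
  have ha4 : ∀ i m, m ∉ range e → a (e i) m = 0 := fun i m hm => by
    rw [ha1, extend_apply' _ _ _ hm]
    rfl
  have hs1 : ∀ i, s (e i) = ‖A i‖ := fun i => by rw [hs, he.extend_apply]
  have hs2 : ∀ n, n ∉ range e → s n = 0 := fun n hn => by
    rw [hs, extend_apply' _ _ _ hn]
    rfl
  have hs0 : ∀ n, 0 ≤ s n := by
    intro n
    by_cases hn : n ∈ range e
    · obtain ⟨i, rfl⟩ := hn
      rw [hs1]
      exact norm_nonneg _
    · rw [hs2 n hn]
  refine ⟨a, s, ?_, ?_, ?_, ?_, ?_⟩
  · rw [← he.summable_iff (f := s) (fun n hn => hs2 n hn)]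
    refine hAs.congr fun i => ?_
    rw [comp_apply, hs1]
  · intro n m
    by_cases hn : n ∈ range e
    · obtain ⟨i, rfl⟩ := hn
      by_cases hm : m ∈ range e
      · obtain ⟨j, rfl⟩ := hm
        rw [ha2, hs1]
        exact hf j (A i)
      · rw [ha4 i m hm, abs_zero]
        exact hs0 _
    · rw [ha3 n hn]
      simpa using hs0 n
  · intro n
    by_cases hn : n ∈ range e
    · obtain ⟨i, rfl⟩ := hn
      refine ((hsupp (A i)).image e).subset fun m hm => ?_
      by_cases hm' : m ∈ range e
      · obtain ⟨j, rfl⟩ := hm'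
        refine ⟨j, ?_, rfl⟩
        rw [mem_support, ha2] at hm
        exact hm
      · exact absurd (ha4 i m hm') hm
    · rw [ha3 n hn]
      simp
  · intro i m
    by_cases hi : i ∈ range e
    · obtain ⟨i, rfl⟩ := hi
      by_cases hm : m ∈ range e
      · obtain ⟨m, rfl⟩ := hm
        have h1 : ∑' j, a (e i) (e j) * a (e j) (e m) = ∑' n, a (e i) n * a n (e m) :=
          he.tsum_eq (f := fun n => a (e i) n * a n (e m)) (fun n hn => by
            by_contra hcon
            rw [mem_support] at hn
            apply hn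
            rw [ha4 i n hcon, zero_mul])
        rw [← h1]
        simp only [ha2]
        have hfin : (support fun j => f j (A i) * f m (A j)).Finite :=
          (hsupp (A i)).subset fun j hj => by
            rw [mem_support] at hj ⊢
            exact fun h0 => hj (by rw [h0, zero_mul])
        rw [tsum_eq_finsum hfin]
        have h2 : (f m) (∑ᶠ j, f j (A i) • A j) = ∑ᶠ j, (f m) (f j (A i) • A j) :=
          map_finsum (f m) ((hsupp (A i)).subset fun j hj => by
            rw [mem_support] at hj ⊢
            exact fun h0 => hj (by rw [h0, zero_smul]))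
        rw [hrel, map_zero] at h2
        rw [h2]
        simp
      · have : ∀ n, a (e i) n * a n m = 0 := by
          intro n
          by_cases hn : n ∈ range e
          · obtain ⟨j, rfl⟩ := hn
            rw [ha4 j m hm, mul_zero]
          · rw [ha4 i n hn, zero_mul]
        simp [this]
    · simp [ha3 i hi]
  · have h1 : ∑' j, a (e j) (e j) = ∑' n, a n n :=
      he.tsum_eq (f := fun n => a n n) (fun n hn => by
        by_contra hcon
        rw [mem_support] at hn
        apply hn
        rw [ha3 n hcon]
        rfl)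
    rw [← h1]
    simp only [ha2]
    exact htr

end Pool.Agent.helper26.C0
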