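import Pool.Agent.helper26.C0.Data

/-!
# The subspace of `c₀`
-/

set_option autoImplicit false

namespace Pool.Agent.helper26.C0

open Filter Topology Set Function
open scoped ENNReal

/-- The ambient space `ℓ_∞`. -/
abbrev Linf : Type := lp (fun _ : ℕ => ℝ) ∞

/-- The index set: block number, `none` for the limit or `some n` for the `n`th difference, and the
coordinate. -/
abbrev Idx : Type := ℕ × Option ℕ × ℕ

/-- An enumeration of the index set. -/
noncomputable def en : Idx ≃ ℕ := Denumerable.eqv Idx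

variable (a : ℕ → ℕ → ℝ)

/-- The span of the first `n` rows. -/
def E (n : ℕ) : Submodule ℝ (ℕ → ℝ) := Submodule.span ℝ (a '' {i | i < n})

variable {a}

theorem mem_E {i n : ℕ} (h : i < n) : a i ∈ E a n :=
  Submodule.subset_span ⟨i, h, rfl⟩

theorem E_mono {m n : ℕ} (h : m ≤ n) : E a m ≤ E a n :=
  Submodule.span_mono (image_mono fun _ hi => lt_of_lt_of_le hi h)

instance E_fin (n : ℕ) : FiniteDimensional ℝ (E a n) :=
  FiniteDimensional.span_of_finite ℝ ((finite_lt_nat n).image a)

theorem E_closed (n : ℕ) : IsClosed (E a n : Set (ℕ → ℝ)) :=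
  Submodule.closed_of_finiteDimensional _

/-- The union of the supports of the first `n` rows. -/
def J (a : ℕ → ℕ → ℝ) (n : ℕ) : Set ℕ := ⋃ i ∈ {i | i < n}, support (a i)

theorem J_finite (ha : ∀ n, (support (a n)).Finite) (n : ℕ) : (J a n).Finite :=
  (finite_lt_nat n).biUnion fun i _ => ha i

theorem E_supp {n : ℕ} {v : ℕ → ℝ} (hv : v ∈ E a n) {j : ℕ} (hj : j ∉ J a n) : v j = 0 := by
  induction hv using Submodule.span_induction with
  | mem v hv =>
    obtain ⟨i, hi, rfl⟩ := hv
    by_contra h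
    exact hj (mem_biUnion hi h)
  | zero => rfl
  | add v w _ _ h1 h2 => rw [Pi.add_apply, h1, h2, add_zero]
  | smul c v _ h1 => rw [Pi.smul_apply, h1, smul_zero]

/-- The `n`th entry of the `k`th block, as a linear map. -/
noncomputable def z (k n : ℕ) : Linf →ₗ[ℝ] (ℕ → ℝ) where
  toFun w j := w (en (k, none, j)) / ((k : ℝ) + 1) + w (en (k, some n, j))
  map_add' v w := by
    funext j
    simp only [lp.coeFn_add, Pi.add_apply]
    ring
  map_smul' c v := by
    funext j
    simp only [lp.coeFn_smul, Pi.smul_apply, smul_eq_mul, RingHom.id_apply]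
    ring

theorem z_apply (k n : ℕ) (w : Linf) (j : ℕ) :
    z k n w j = w (en (k, none, j)) / ((k : ℝ) + 1) + w (en (k, some n, j)) := rfl

theorem continuous_coord (i : ℕ) : Continuous fun w : Linf => w i :=
  (lp.evalCLM ℝ (fun _ : ℕ => ℝ) ∞ i).continuous

theorem z_continuous (k n : ℕ) : Continuous (z k n) := by
  refine continuous_pi fun j => ?_
  exact ((continuous_coord _).div_const _).add (continuous_coord _)

variable (a)

/-- The subspace. -/
noncomputable def S : Submodule ℝ Linf where
  carrier := {w | Tendsto (fun n : ℕ => w n) atTop (𝓝 0) ∧ ∀ k n, z k n w ∈ E a n}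
  add_mem' := by
    rintro v w ⟨h1, h2⟩ ⟨h3, h4⟩
    refine ⟨?_, fun k n => ?_⟩
    · have := h1.add h3
      rwa [add_zero] at this
    · rw [map_add]
      exact add_mem (h2 k n) (h4 k n)
  zero_mem' := by
    refine ⟨?_, fun k n => ?_⟩
    · exact tendsto_const_nhds
    · rw [map_zero]
      exact zero_mem _
  smul_mem' := by
    rintro c w ⟨h1, h2⟩
    refine ⟨?_, fun k n => ?_⟩
    · have := h1.const_mul c
      rwa [mul_zero] at this
    · rw [map_smul]
      exact Submodule.smul_mem _ _ (h2 k n)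

variable {a}

theorem mem_S {w : Linf} : w ∈ S a ↔
    Tendsto (fun n : ℕ => w n) atTop (𝓝 0) ∧ ∀ k n, z k n w ∈ E a n := Iff.rfl

theorem S_closed : IsClosed (S a : Set Linf) := by
  have h1 : IsClosed {w : Linf | Tendsto (fun n : ℕ => w n) atTop (𝓝 0)} := by
    rw [← isSeqClosed_iff_isClosed]
    intro v w hv hvw
    rw [mem_ofPred_eq, Metric.tendsto_atTop]
    intro ε hε
    rw [Metric.tendsto_atTop] at hvw
    obtain ⟨N, hN⟩ := hvw (ε / 2) (half_pos hε)
    have h2 := hN N le_rfl
    have h3 : Tendsto (fun n : ℕ => v N n) atTop (𝓝 0) := hv N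
    rw [Metric.tendsto_atTop] at h3
    obtain ⟨M, hM⟩ := h3 (ε / 2) (half_pos hε)
    refine ⟨M, fun n hn => ?_⟩
    have h4 := hM n hn
    rw [Real.dist_eq, sub_zero] at h4 ⊢
    rw [dist_eq_norm] at h2
    have h5 := lp.norm_apply_le_norm ENNReal.top_ne_zero (v N - w) n
    rw [lp.coeFn_sub, Pi.sub_apply, Real.norm_eq_abs] at h5
    have h6 : |w n| ≤ |v N n| + |v N n - w n| := by
      have := abs_sub_abs_le_abs_sub (w n) (v N n)
      rw [abs_sub_comm] at this
      linarith
    linarith
  have h2 : (S a : Set Linf) = {w : Linf | Tendsto (fun n : ℕ => w n) atTop (𝓝 0)} ∩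
      ⋂ k, ⋂ n, z k n ⁻¹' (E a n : Set (ℕ → ℝ)) := by
    ext w
    simp only [SetLike.mem_coe, mem_S, mem_inter_iff, mem_ofPred_eq, mem_iInter, mem_preimage]
  rw [h2]
  exact h1.inter (isClosed_iInter fun k => isClosed_iInter fun n =>
    (E_closed n).preimage (z_continuous k n))

/-- Finitely supported elements of `ℓ_∞`. -/
noncomputable def mkL (w : ℕ → ℝ) (hw : (support w).Finite) : Linf :=
  ⟨w, memℓp_infty (by
    refine Set.Finite.bddAbove ?_
    refine ((hw.image fun i => ‖w i‖).union (finite_singleton 0)).subset ?_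
    rintro _ ⟨i, rfl⟩
    by_cases hi : i ∈ support w
    · left
      exact ⟨i, hi, rfl⟩
    · right
      rw [notMem_support] at hi
      simp [hi])⟩

theorem mkL_apply (w : ℕ → ℝ) (hw : (support w).Finite) (i : ℕ) : mkL w hw i = w i := rfl

theorem mkL_tendsto (w : ℕ → ℝ) (hw : (support w).Finite) :
    Tendsto (fun n : ℕ => mkL w hw n) atTop (𝓝 0) := by
  obtain ⟨N, hN⟩ := hw.bddAbove
  refine tendsto_const_nhds.congr' ?_
  filter_upwards [eventually_gt_atTop N] with n hn
  rw [mkL_apply]
  by_contra h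
  exact absurd (hN (fun h0 => h h0.symm : n ∈ support w)) (not_le.2 hn)

end Pool.Agent.helper26.C0
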